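import Pool.Agent.H673.VTC.Final

/-!
# An uncountable model of `VTC⁰` that is not an exponential integer part

The definitions (two-sorted structures, `Σ^B_0` formulas, the theories `V⁰` and `VTC⁰` of Cook and
Nguyen, the ring of binary integers of a model, exponential fields and integer parts) are in
`Pool/Agent/H673/VTC/Defs.lean`.

Idea. Let `2^x` be an exponential on an ordered field `R` with integer part `Z`. If `x, y > ℕ` are
in different archimedean classes, then no power of `2^x` exceeds `2^y` or vice versa. So the chain
of the archimedean classes of infinite elements of `Z` embeds into the chain of its classes modulo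
`u ~ v ⟺ u ≤ v^k, v ≤ u^k` for some `k ∈ ℕ`. In the ring of binary integers of a model with the
number sort `J`, the first chain is `J` modulo finite differences, the second one is `J` modulo
archimedean equivalence, and its elements are determined by the binary lengths of the elements
of `J`. Let `ℓ` be nonstandard and let `J` be the set of all numbers below some `2^(ℓ k)`, `k ∈ ℕ`,
in a Skolem hull in an ultrapower of `ℕ`, such that there are uncountably many numbers below `2^ℓ`
but only countably many numbers below `ℓ`. Then the first chain is uncountable and the second one
is countable. Such a hull is obtained by Zorn's lemma: a countable set of generators can always be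
extended by some `x < 2^ℓ` without adding elements below `ℓ`, because by the pigeonhole principle
each function on a set of at least `2^ℓ / ℓ^k` elements with values below `ℓ` is constant on a set
of at least `2^ℓ / ℓ^(k+1)` elements.
-/

set_option autoImplicit false

universe u

namespace Pool.Agent.Results.MP_632592_lc.NotExponentialIntegerPart

open Pool.Agent.H673.VTC

/-- There is an uncountable model `M` of `VTC⁰` (in which, moreover, the multiplication of binary
numbers is total), both of whose sorts are uncountable, which is not an exponential integer part of
a real-closed exponential field. In fact, the ring of binary integers of `M` (which exists) is not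
isomorphic to an integer part of any ordered field that has an exponential. -/
theorem result : ∃ M : TwoSorted,
    M.VTC0 ∧ (∀ X Y, ∃ Z, M.MulS X Y Z) ∧ Uncountable M.Num ∧ Uncountable M.Str ∧
    (∃ (Z : Type) (_ : CommRing Z) (_ : LinearOrder Z) (_ : IsStrictOrderedRing Z),
      M.IsRingOf Z) ∧
    ¬ TwoSorted.IsExpIPOfRCEF.{u} M ∧
    ∀ (R : Type u) [Field R] [LinearOrder R] [IsStrictOrderedRing R] (E : R → R)
      (Z : Subring R), IsExp E → IsIntegerPart Z → ¬ M.IsRingOf Z := by
  obtain ⟨M, h1, h2, h3, h4, h5, h6⟩ := main.{u}
  refine ⟨M, h1, h2, h3, h4, h5, ?_, h6⟩
  rintro ⟨R, _, _, _, _, E, Z, hE, hZ, hM⟩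
  exact h6 R E Z hE hZ.toIsIntegerPart hM

end Pool.Agent.Results.MP_632592_lc.NotExponentialIntegerPart
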